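import Mathlib
set_option maxHeartbeats 400000
open Filter Set
namespace Pool.Agent.H.MP_bcfe2b_lc

def AL (A B : Set ℕ) : Prop := ∀ᶠ n in cofinite, n ∈ A → n ∈ B

lemma AL.of_subset {A B : Set ℕ} (h : A ⊆ B) : AL A B := Eventually.of_forall fun _ hn => h hn

lemma AL.trans {A B C : Set ℕ} (h1 : AL A B) (h2 : AL B C) : AL A C := by
  filter_upwards [h1, h2] with n a b c using b (a c)

lemma pseudo (Q : ℕ → Set ℕ) (h : ∀ n, {m | ∀ k ≤ n, m ∈ Q k}.Infinite) :
    ∃ B : Set ℕ, B.Infinite ∧ ∀ k, AL B (Q k) := by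
  choose x hx1 hx2 using fun n => (h n).exists_gt n
  refine ⟨range x, ?_, fun k => ?_⟩
  · refine Set.infinite_of_not_bddAbove ?_
    rintro ⟨b, hb⟩
    exact absurd (hb ⟨b, rfl⟩) (not_le.mpr (hx2 b))
  · refine Filter.mem_cofinite.mpr (((Set.finite_Iio k).image x).subset ?_)
    intro m hm
    simp only [mem_compl_iff, mem_ofPred_eq, Classical.not_imp] at hm
    obtain ⟨⟨n, rfl⟩, h2⟩ := hm
    refine ⟨n, ?_, rfl⟩
    by_contra h3
    exact h2 (hx1 n k (not_lt.mp h3))

lemma separate (P R : ℕ → Set ℕ) (h : ∀ i j, AL (P i) (R j)) :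
    ∃ A : Set ℕ, ∀ i, AL (P i) A ∧ AL A (R i) := by
  refine ⟨{m | ∃ n, m ∈ P n ∧ ∀ k ≤ n, m ∈ R k}, fun i => ⟨?_, ?_⟩⟩
  · have := (Filter.eventually_all_finite (Set.finite_Iic i)).mpr fun k _ => h i k
    filter_upwards [this] with m h1 h2 using ⟨i, h2, fun k hk => h1 k hk h2⟩
  · have := (Filter.eventually_all_finite (Set.finite_Iic i)).mpr fun k _ => h k i
    filter_upwards [this] with m h1 ⟨n, h2, h3⟩
    rcases le_total n i with h4 | h4
    · exact h1 n h4 h2
    · exact h3 i h4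

lemma interp {ι : Type} [LinearOrder ι] [Countable ι] (P Q : ι → Set ℕ)
    (hQ : ∀ i, (Q i).Infinite) (hd : ∀ i, Disjoint (P i) (Q i))
    (h : ∀ i j, i < j → AL (P i) (P j) ∧ AL (P j) (P i ∪ Q i) ∧ AL (Q j) (Q i)) :
    ∃ a : Set ℕ × Set ℕ, a.2.Infinite ∧ Disjoint a.1 a.2 ∧
      ∀ i, AL (P i) a.1 ∧ AL a.1 (P i ∪ Q i) ∧ AL a.2 (Q i) := by
  rcases isEmpty_or_nonempty ι with h0 | h0
  · exact ⟨(∅, univ), infinite_univ, by simp, fun i => h0.elim i⟩
  obtain ⟨e, he⟩ := exists_surjective_nat ι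
  have h' : ∀ i j, i ≤ j → AL (P i) (P j) ∧ AL (P j) (P i ∪ Q i) ∧ AL (Q j) (Q i) := by
    intro i j hij
    rcases hij.lt_or_eq with h1 | rfl
    · exact h i j h1
    · exact ⟨.of_subset subset_rfl, .of_subset subset_union_left, .of_subset subset_rfl⟩
  obtain ⟨B, hB1, hB2⟩ := pseudo (fun k => Q (e k)) (by
    intro n
    obtain ⟨j, -, hj⟩ := Set.exists_max_image (Iic n) e (finite_Iic n) ⟨n, self_mem_Iic⟩
    have h1 := (Filter.eventually_all_finite (Set.finite_Iic n)).mpr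
      fun k hk => (h' _ _ (hj k hk)).2.2
    have h2 := Set.infinite_iff_frequently_cofinite.mp (hQ (e j))
    exact Set.infinite_iff_frequently_cofinite.mpr
      ((h2.and_eventually h1).mono fun m hm k hk => hm.2 k hk hm.1))
  obtain ⟨A, hA⟩ := separate (fun k => P (e k)) (fun k => P (e k) ∪ Q (e k)) (by
    intro i j
    rcases le_total (e i) (e j) with h1 | h1
    · exact (h' _ _ h1).1.trans (.of_subset subset_union_left)
    · exact (h' _ _ h1).2.1)
  refine ⟨(A \ B, B), hB1, disjoint_sdiff_left, fun i => ?_⟩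
  obtain ⟨k, rfl⟩ := he i
  refine ⟨?_, (AL.of_subset sdiff_subset).trans (hA k).2, hB2 k⟩
  filter_upwards [(hA k).1, hB2 k] with m h1 h2 h3
  exact ⟨h1 h3, fun h4 => Set.disjoint_left.mp (hd _) h3 (h2 h4)⟩

lemma exists_part : ∃ part : Set ℕ → ℕ → Set ℕ, ∀ B : Set ℕ, B.Infinite →
    (∀ k, part B k ⊆ B ∧ (part B k).Infinite) ∧ ∀ k l, k ≠ l → Disjoint (part B k) (part B l) := by
  have : ∀ B : Set ℕ, ∃ part : ℕ → Set ℕ, B.Infinite →
      (∀ k, part k ⊆ B ∧ (part k).Infinite) ∧ ∀ k l, k ≠ l → Disjoint (part k) (part l) := by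
    intro B
    by_cases hB : B.Infinite
    · have hi : Function.Injective fun n => (hB.natEmbedding B n : ℕ) :=
        Subtype.val_injective.comp (hB.natEmbedding B).injective
      refine ⟨fun k => range fun n => (hB.natEmbedding B (Nat.pair k n) : ℕ), fun _ => ⟨fun k => ⟨?_, ?_⟩, ?_⟩⟩
      · rintro _ ⟨n, rfl⟩
        exact (hB.natEmbedding B _).2
      · refine Set.infinite_range_of_injective fun a b hab => ?_
        simpa using hi hab
      · intro k l hkl
        rw [Set.disjoint_left]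
        rintro _ ⟨n, rfl⟩ ⟨m, hm⟩
        exact hkl (Nat.pair_eq_pair.mp (hi hm)).1.symm
    · exact ⟨fun _ => ∅, fun h => absurd h hB⟩
  choose part h using this
  exact ⟨part, h⟩

theorem tree (W : Type) [LinearOrder W] [WellFoundedLT W] (hW : ∀ w : W, (Iio w).Countable) :
    ∃ P : (W → Bool) → W → Set ℕ,
      (∀ x i j, i ≤ j → AL (P x i) (P x j)) ∧
      (∀ x i j, i < j → (P x j \ P x i).Infinite) ∧
      ∀ x y, x ≠ y → ∃ (A C D : Set ℕ) (r : W), (∀ i, AL (P x i) C) ∧ (∀ i, AL (P y i) D) ∧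
        C ∩ D ⊆ A ∧ A ⊆ P x r ∧ A ⊆ P y r ∧ (P x r \ A).Infinite := by
  classical
  obtain ⟨part, hp⟩ := exists_part
  let up : Set ℕ × Set ℕ → Bool → Set ℕ × Set ℕ :=
    fun a b => (a.1 ∪ part a.2 b.toNat, part a.2 (b.toNat + 2))
  let Good : ∀ {w : W}, (Iio w → Set ℕ × Set ℕ) → Set ℕ × Set ℕ → Prop := fun h a =>
    a.2.Infinite ∧ Disjoint a.1 a.2 ∧
      ∀ i, AL (h i).1 a.1 ∧ AL a.1 ((h i).1 ∪ (h i).2) ∧ AL a.2 (h i).2
  let F : (W → Bool) → W → Set ℕ × Set ℕ := fun x => (wellFounded_lt (α := W)).fix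
    fun w rec => Classical.epsilon (Good fun i : Iio w => up (rec i i.2) (x i))
  have hF : ∀ x w, F x w = Classical.epsilon (Good fun i : Iio w => up (F x i) (x i)) :=
    fun x w => WellFounded.fix_eq _ _ _
  have hup : ∀ (a : Set ℕ × Set ℕ) b, a.2.Infinite → Disjoint a.1 a.2 →
      (up a b).2.Infinite ∧ Disjoint (up a b).1 (up a b).2 ∧ a.1 ⊆ (up a b).1 ∧
        (up a b).1 ⊆ a.1 ∪ a.2 ∧ (up a b).2 ⊆ a.2 ∧ ((up a b).1 \ a.1).Infinite := by
    intro a b h1 h2
    obtain ⟨h3, h4⟩ := hp a.2 h1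
    refine ⟨(h3 _).2, ?_, subset_union_left, union_subset_union_right _ (h3 _).1, (h3 _).1, ?_⟩
    · exact Set.disjoint_union_left.mpr ⟨h2.mono_right (h3 _).1, h4 _ _ (by omega)⟩
    · refine (h3 b.toNat).2.mono fun n hn => ⟨Or.inr hn, fun h5 => ?_⟩
      exact Set.disjoint_left.mp h2 h5 ((h3 _).1 hn)
  have step : ∀ x (i j : W) (hij : i < j), Good (fun i : Iio j => up (F x i) (x i)) (F x j) →
      AL (up (F x i) (x i)).1 (up (F x j) (x j)).1 ∧
      AL (up (F x j) (x j)).1 ((up (F x i) (x i)).1 ∪ (up (F x i) (x i)).2) ∧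
      AL (up (F x j) (x j)).2 (up (F x i) (x i)).2 := by
    intro x i j hij ⟨g1, g2, g3⟩
    obtain ⟨-, -, u3, u4, u5, -⟩ := hup _ (x j) g1 g2
    obtain ⟨a1, a2, a3⟩ := g3 ⟨i, hij⟩
    refine ⟨a1.trans (.of_subset u3), ?_, (AL.of_subset u5).trans a3⟩
    filter_upwards [a2, a3] with n b1 b2 b3
    rcases u4 b3 with h | h
    · exact b1 h
    · exact Or.inr (b2 h)
  have spec : ∀ x w, Good (fun i : Iio w => up (F x i) (x i)) (F x w) := by
    intro x w
    induction w using WellFoundedLT.induction with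
    | ind w ih =>
      rw [hF]
      apply Classical.epsilon_spec
      have := (hW w).to_subtype
      exact interp (fun i : Iio w => (up (F x i) (x i)).1) (fun i => (up (F x i) (x i)).2)
        (fun i => (hup _ _ (ih i i.2).1 (ih i i.2).2.1).1)
        (fun i => (hup _ _ (ih i i.2).1 (ih i i.2).2.1).2.1)
        (fun i j hij => step x i j hij (ih j j.2))
  have agree : ∀ x y w, (∀ i < w, x i = y i) → F x w = F y w := by
    intro x y w
    induction w using WellFoundedLT.induction with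
    | ind w ih =>
      intro h
      rw [hF, hF]
      congr 2
      funext i
      rw [ih i i.2 fun k hk => h k (hk.trans i.2), h i i.2]
  have mono : ∀ x i j, i ≤ j → AL (up (F x i) (x i)).1 (up (F x j) (x j)).1 := by
    intro x i j hij
    rcases hij.lt_or_eq with h | rfl
    · exact (step x i j h (spec x j)).1
    · exact .of_subset subset_rfl
  have bd : ∀ x r i, AL (up (F x i) (x i)).1 ((up (F x r) (x r)).1 ∪ (up (F x r) (x r)).2) := by
    intro x r i
    rcases le_or_gt i r with h | h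
    · exact (mono x i r h).trans (.of_subset subset_union_left)
    · exact (step x r i h (spec x i)).2.1
  refine ⟨fun x i => (up (F x i) (x i)).1, mono, fun x i j hij => ?_, fun x y hxy => ?_⟩
  · obtain ⟨g1, g2, g3⟩ := spec x j
    have h1 := Set.infinite_iff_frequently_cofinite.mp (hup _ (x j) g1 g2).2.2.2.2.2
    refine Set.infinite_iff_frequently_cofinite.mpr ((h1.and_eventually (g3 ⟨i, hij⟩).1).mono ?_)
    exact fun n hn => ⟨hn.1.1, fun h => hn.1.2 (hn.2 h)⟩
  · obtain ⟨r, hr, hmin⟩ := (wellFounded_lt (α := W)).has_min {i | x i ≠ y i}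
      (Function.ne_iff.mp hxy)
    have he : F x r = F y r := agree x y r fun i hi => by
      by_contra h
      exact hmin i h hi
    obtain ⟨g1, g2, -⟩ := spec x r
    refine ⟨(F x r).1, _, _, r, bd x r, bd y r, ?_, subset_union_left, he ▸ subset_union_left,
      (hup _ (x r) g1 g2).2.2.2.2.2⟩
    rw [← he]
    have h4 := fun k l h => Set.disjoint_left.mp ((hp _ g1).2 k l h)
    have h5 : (x r).toNat ≠ (y r).toNat := fun h => hr (by
      revert h; cases x r <;> cases y r <;> simp)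
    have h6 := Bool.toNat_le (x r)
    have h7 := Bool.toNat_le (y r)
    rintro n ⟨(h1 | h1) | h1, (h2 | h2) | h2⟩
    any_goals assumption
    all_goals exact absurd h2 (h4 _ _ (by omega) h1)

abbrev NS : Type := {p : Ultrafilter ℕ // (p : Filter ℕ) ≤ cofinite}

def N (y : Set ℕ) : Set NS := {p | y ∈ p.1}

lemma N_open (y : Set ℕ) : IsOpen (N y) := (ultrafilter_isOpen_basic y).preimage continuous_subtype_val
lemma N_closed (y : Set ℕ) : IsClosed (N y) :=
  (ultrafilter_isClosed_basic y).preimage continuous_subtype_val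

instance : CompactSpace NS := by
  have : {p : Ultrafilter ℕ | (p : Filter ℕ) ≤ cofinite} = ⋂ s ∈ (cofinite : Filter ℕ), {p | s ∈ p} := by
    ext p
    simp only [mem_ofPred_eq, mem_iInter]
    exact Filter.le_def
  have h : IsClosed {p : Ultrafilter ℕ | (p : Filter ℕ) ≤ cofinite} := by
    rw [this]
    exact isClosed_biInter fun s _ => ultrafilter_isClosed_basic s
  exact isCompact_iff_compactSpace.mp h.isCompact

lemma N_mono {A B : Set ℕ} (h : AL A B) : N A ⊆ N B := fun p hp => by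
  have h1 : ∀ᶠ n in (p.1 : Filter ℕ), n ∈ A → n ∈ B := p.2 h
  exact Filter.mp_mem hp h1

lemma N_nonempty {A : Set ℕ} (h : A.Infinite) : (N A).Nonempty := by
  have h1 : (cofinite ⊓ 𝓟 A).NeBot :=
    Filter.frequently_mem_iff_neBot.mp (Set.infinite_iff_frequently_cofinite.mp h)
  exact ⟨⟨Ultrafilter.of (cofinite ⊓ 𝓟 A), (Ultrafilter.of_le _).trans inf_le_left⟩,
    Filter.le_principal_iff.mp ((Ultrafilter.of_le _).trans inf_le_right)⟩

lemma N_inter (A B : Set ℕ) : N A ∩ N B = N (A ∩ B) := by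
  ext p; exact Filter.inter_mem_iff.symm

lemma N_empty : N ∅ = ∅ := by
  ext p; simp [N]

lemma compact_open {U : Set NS} (h1 : IsOpen U) (h2 : IsCompact U) : ∃ C, U = N C := by
  have hb : ∀ p ∈ U, ∃ y, p ∈ N y ∧ N y ⊆ U := by
    intro p hp
    obtain ⟨V, hV, rfl⟩ := isOpen_induced_iff.mp h1
    obtain ⟨_, ⟨y, rfl⟩, h3, h4⟩ := ultrafilterBasis_is_basis.exists_subset_of_mem_open hp hV
    exact ⟨y, h3, fun q hq => h4 hq⟩
  obtain ⟨t, ht⟩ := h2.elim_finite_subcover (fun y : {y // N y ⊆ U} => N y.1) (fun y => N_open _)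
    (fun p hp => by
      obtain ⟨y, h3, h4⟩ := hb p hp
      exact mem_iUnion.mpr ⟨⟨y, h4⟩, h3⟩)
  refine ⟨⋃ y ∈ (t : Set {y // N y ⊆ U}), y.1, Subset.antisymm (fun p hp => ?_) fun p hp => ?_⟩
  · obtain ⟨y, hy, h3⟩ := mem_iUnion₂.mp (ht hp)
    exact (Ultrafilter.finite_biUnion_mem_iff t.finite_toSet).mpr ⟨y, hy, h3⟩
  · obtain ⟨y, -, h3⟩ := (Ultrafilter.finite_biUnion_mem_iff t.finite_toSet).mp hp
    exact y.2 h3

def UU {W : Type} (P : W → Set ℕ) : Set NS := interior (closure (⋃ i, N (P i)))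

lemma sub_UU {W : Type} (P : W → Set ℕ) (i : W) : N (P i) ⊆ UU P :=
  (N_open _).subset_interior_closure.trans
    (interior_mono (closure_mono (subset_iUnion (fun i => N (P i)) i)))

lemma UU_sub {W : Type} (P : W → Set ℕ) (C : Set ℕ) (h : ∀ i, AL (P i) C) : UU P ⊆ N C :=
  interior_subset.trans (closure_minimal (iUnion_subset fun i => N_mono (h i)) (N_closed C))

theorem family (W : Type) [LinearOrder W] [WellFoundedLT W] (hW : ∀ w : W, (Iio w).Countable) :
    ∃ P : (W → Bool) → W → Set ℕ, (∀ x i j, i ≤ j → AL (P x i) (P x j)) ∧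
      (∀ x i j, i < j → (P x j \ P x i).Infinite) ∧
      (Function.Injective fun x => UU (P x)) ∧ ∀ x y, x ≠ y → IsCompact (UU (P x) ∩ UU (P y)) := by
  obtain ⟨P, h1, h2, h3⟩ := tree W hW
  have key : ∀ x y, x ≠ y → ∃ A r, UU (P x) ∩ UU (P y) = N A ∧ (P x r \ A).Infinite := by
    intro x y hxy
    obtain ⟨A, C, D, r, a1, a2, a3, a4, a5, a6⟩ := h3 x y hxy
    refine ⟨A, r, Subset.antisymm ?_ (subset_inter ?_ ?_), a6⟩
    · refine (inter_subset_inter (UU_sub _ _ a1) (UU_sub _ _ a2)).trans ?_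
      rw [N_inter]
      exact N_mono (.of_subset a3)
    · exact (N_mono (.of_subset a4)).trans (sub_UU _ r)
    · exact (N_mono (.of_subset a5)).trans (sub_UU _ r)
  refine ⟨P, h1, h2, fun x y h => ?_, fun x y hxy => ?_⟩
  · by_contra hxy
    obtain ⟨A, r, a1, a2⟩ := key x y hxy
    simp only at h
    rw [← h, inter_self] at a1
    obtain ⟨p, hp⟩ := N_nonempty a2
    have a3 : p ∈ N A := a1 ▸ sub_UU _ r (N_mono (.of_subset sdiff_subset) hp)
    have a4 : p ∈ N (P x r \ A) ∩ N A := ⟨hp, a3⟩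
    rw [N_inter, sdiff_inter_self, N_empty] at a4
    exact a4
  · obtain ⟨A, r, a1, -⟩ := key x y hxy
    rw [a1]
    exact (N_closed A).isCompact

lemma not_compact (P : ℕ → Set ℕ) (h1 : ∀ i j, i ≤ j → AL (P i) (P j))
    (h2 : ∀ i j, i < j → (P j \ P i).Infinite) : ¬ IsCompact (UU P) := by
  intro h
  obtain ⟨C, hC⟩ := compact_open isOpen_interior h
  have hPC : ∀ i, AL (P i) C := by
    intro i
    by_contra h3
    have h4 : (P i \ C).Infinite := Set.infinite_iff_frequently_cofinite.mpr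
      ((Filter.not_eventually.mp h3).mono fun n hn => Classical.not_imp.mp hn)
    obtain ⟨p, hp⟩ := N_nonempty h4
    have a3 : p ∈ N C := hC ▸ sub_UU _ i (N_mono (.of_subset sdiff_subset) hp)
    have a4 : p ∈ N (P i \ C) ∩ N C := ⟨hp, a3⟩
    rw [N_inter, sdiff_inter_self, N_empty] at a4
    exact a4
  obtain ⟨D, hD1, hD2⟩ := pseudo (fun k => C \ P k) (by
    intro n
    have a1 := Set.infinite_iff_frequently_cofinite.mp (h2 n (n+1) (Nat.lt_succ_self n))
    have a2 := (Filter.eventually_all_finite (Set.finite_Iic n)).mpr fun k hk => h1 k n hk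
    refine Set.infinite_iff_frequently_cofinite.mpr
      ((a1.and_eventually (a2.and (hPC (n+1)))).mono fun m hm k hk => ?_)
    exact ⟨hm.2.2 hm.1.1, fun h5 => hm.1.2 (hm.2.1 k hk h5)⟩)
  obtain ⟨p, hp⟩ := N_nonempty hD1
  have a1 : p ∈ UU P := by
    unfold UU
    rw [hC]
    exact N_mono ((hD2 0).trans (.of_subset sdiff_subset)) hp
  obtain ⟨q, hq1, hq2⟩ := mem_closure_iff.mp (interior_subset a1) _ (N_open D) hp
  obtain ⟨k, hk⟩ := mem_iUnion.mp hq2
  have a4 : q ∈ N (C \ P k) ∩ N (P k) := ⟨N_mono (hD2 k) hq1, hk⟩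
  rw [N_inter, sdiff_inter_self, N_empty] at a4
  exact a4

open Cardinal in
theorem main : ∃ 𝒜 : Set (Set NS), #𝒜 = 2 ^ ℵ₁ ∧
    (∀ U ∈ 𝒜, U = interior (closure U) ∧ ¬ IsCompact U) ∧
    𝒜.Pairwise fun U V => IsCompact (U ∩ V) := by
  have reg : ∀ {W : Type} (P : W → Set ℕ), UU P = interior (closure (UU P)) :=
    fun P => interior_closure_idem.symm
  rcases le_or_gt ((2 : Cardinal.{0}) ^ ℵ₁) (2 ^ ℵ₀) with h | h
  · obtain ⟨P, h1, h2, h3, h4⟩ := family ℕ fun w => to_countable _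
    refine ⟨range fun x => UU (P x), ?_, ?_, ?_⟩
    · rw [mk_range_eq _ h3]
      refine Eq.trans ?_ (le_antisymm (power_le_power_left two_ne_zero aleph0_lt_aleph_one.le) h)
      simp
    · rintro _ ⟨x, rfl⟩
      exact ⟨reg _, not_compact _ (h1 x) (h2 x)⟩
    · rintro _ ⟨x, rfl⟩ _ ⟨y, rfl⟩ hne
      exact h4 x y fun h5 => hne (by rw [h5])
  · obtain ⟨P, -, -, h3, h4⟩ := family (ℵ₁ : Cardinal.{0}).ord.ToType
      fun w => (countable_iff_lt_aleph_one _).mpr (mk_Iio_toType_ord_lt w)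
    let S : Set ((ℵ₁ : Cardinal.{0}).ord.ToType → Bool) := {x | ¬ IsCompact (UU (P x))}
    have hc : #(Sᶜ : Set _) ≤ 2 ^ ℵ₀ := by
      have : ∀ x : (Sᶜ : Set _), ∃ C, UU (P x) = N C :=
        fun x => compact_open isOpen_interior (not_not.mp x.2)
      choose C hC using this
      have h5 : Function.Injective C := fun x y hxy =>
        Subtype.ext (h3 ((hC x).trans ((congrArg N hxy).trans (hC y).symm)))
      simpa using mk_le_of_injective h5
    have ht : #S + #(Sᶜ : Set _) = 2 ^ ℵ₁ := by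
      rw [mk_sum_compl]
      simp
    have hS : #S = 2 ^ ℵ₁ := by
      refine le_antisymm (ht ▸ self_le_add_right _ _) (not_lt.mp fun h5 => ?_)
      have h6 := add_lt_of_lt (aleph0_le_continuum.trans h.le) h5 (lt_of_le_of_lt hc h)
      exact h6.ne ht
    refine ⟨(fun x => UU (P x)) '' S, ?_, ?_, ?_⟩
    · rw [mk_image_eq h3, hS]
    · rintro _ ⟨x, hx, rfl⟩
      exact ⟨reg _, hx⟩
    · rintro _ ⟨x, -, rfl⟩ _ ⟨y, -, rfl⟩ hne
      exact h4 x y fun h5 => hne (by rw [h5])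

end Pool.Agent.H.MP_bcfe2b_lc
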